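-- Parked, not a hand-in: withdrawn as probably known (see departures/helper99.md).
import Pool.Statements.S15812
import Pool.Agent.Work.MP_e37829_mp.Potential

set_option autoImplicit false
open MeasureTheory
open Pool Pool.MP_e37829_mp

namespace Pool.Agent.Work.MP_e37829_mp.Parked.Neg

/-- The negation of the preceding statement: For every Cantor group, minimal translation and continuous real f, the operators H_ω all have the same spectral type: having eigenvalues, having absolutely continuous spectrum, and having singular continuous spectrum each hold for all ω or for none. -/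
theorem result :
    ¬ (∀ (Ω : Type) [TopologicalSpace Ω] [AddCommGroup Ω] [IsTopologicalAddGroup Ω]
      [CompactSpace Ω] [T2Space Ω] [TopologicalSpace.MetrizableSpace Ω]
      [TotallyDisconnectedSpace Ω] [Nonempty Ω],
      (∀ x : Ω, ¬ IsOpen ({x} : Set Ω)) →
      ∀ (α : Ω), Dense (Set.range (fun n : ℤ => n • α)) →
      ∀ (f : C(Ω, ℝ))
        (H : Ω → (lp (fun _ : ℤ => ℂ) 2 →L[ℂ] lp (fun _ : ℤ => ℂ) 2)),
        (∀ (ω : Ω) (ψ : lp (fun _ : ℤ => ℂ) 2) (n : ℤ),
          (H ω ψ) n = ψ (n + 1) + ψ (n - 1) + ((f (n • α + ω) : ℝ) : ℂ) * ψ n) →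
        ∀ ω ω' : Ω,
          ((∃ ψ : lp (fun _ : ℤ => ℂ) 2, ψ ≠ 0 ∧ ∃ E : ℝ, H ω ψ = (E : ℂ) • ψ) →
            (∃ ψ : lp (fun _ : ℤ => ℂ) 2, ψ ≠ 0 ∧ ∃ E : ℝ, H ω' ψ = (E : ℂ) • ψ)) ∧
          ((∃ (ψ : lp (fun _ : ℤ => ℂ) 2) (μ : Measure ℝ), IsFiniteMeasure μ ∧
              (∀ k : ℕ, Integrable (fun x : ℝ => x ^ k) μ ∧
                (∑' n : ℤ, star (ψ n) * (((⇑(H ω))^[k] ψ) n)) =
                  (((∫ x, x ^ k ∂μ) : ℝ) : ℂ)) ∧
              μ ≠ 0 ∧ μ.AbsolutelyContinuous volume) →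
            (∃ (ψ : lp (fun _ : ℤ => ℂ) 2) (μ : Measure ℝ), IsFiniteMeasure μ ∧
              (∀ k : ℕ, Integrable (fun x : ℝ => x ^ k) μ ∧
                (∑' n : ℤ, star (ψ n) * (((⇑(H ω'))^[k] ψ) n)) =
                  (((∫ x, x ^ k ∂μ) : ℝ) : ℂ)) ∧
              μ ≠ 0 ∧ μ.AbsolutelyContinuous volume)) ∧
          ((∃ (ψ : lp (fun _ : ℤ => ℂ) 2) (μ : Measure ℝ), IsFiniteMeasure μ ∧
              (∀ k : ℕ, Integrable (fun x : ℝ => x ^ k) μ ∧
                (∑' n : ℤ, star (ψ n) * (((⇑(H ω))^[k] ψ) n)) =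
                  (((∫ x, x ^ k ∂μ) : ℝ) : ℂ)) ∧
              μ ≠ 0 ∧ μ.MutuallySingular volume ∧ ∀ x : ℝ, μ {x} = 0) →
            (∃ (ψ : lp (fun _ : ℤ => ℂ) 2) (μ : Measure ℝ), IsFiniteMeasure μ ∧
              (∀ k : ℕ, Integrable (fun x : ℝ => x ^ k) μ ∧
                (∑' n : ℤ, star (ψ n) * (((⇑(H ω'))^[k] ψ) n)) =
                  (((∫ x, x ^ k ∂μ) : ℝ) : ℂ)) ∧
              μ ≠ 0 ∧ μ.MutuallySingular volume ∧ ∀ x : ℝ, μ {x} = 0))) := by
  intro h
  open Pool.Agent.Work.MP_e37829_mp in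
  · obtain ⟨C, hC⟩ : ∃ C : ℝ, ∀ x : ℤ_[2], |ff x| ≤ C :=
      ⟨‖ff‖, fun x => by simpa using ff.norm_coe_le_norm x⟩
    choose H hH using fun ω : ℤ_[2] =>
      exists_operator (fun n : ℤ => ff (n • (1 : ℤ_[2]) + ω)) C (fun n => hC _)
    obtain ⟨w, hw⟩ := exists_phase
    have hiso : ∀ x : ℤ_[2], ¬ IsOpen ({x} : Set ℤ_[2]) := by
      intro x hx
      rw [Metric.isOpen_singleton_iff] at hx
      obtain ⟨ε, hε, hx⟩ := hx
      obtain ⟨k, hk⟩ := PadicInt.exists_pow_neg_lt 2 hε
      have h1 : dist (x + ((2 : ℕ) : ℤ_[2]) ^ k) x < ε := by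
        rw [dist_eq_norm, add_sub_cancel_left, PadicInt.norm_p_pow]
        exact hk
      have h2 := hx _ h1
      have h3 : ((2 : ℕ) : ℤ_[2]) ^ k = 0 := by simpa using h2
      have h4 : ((2 : ℕ) : ℤ_[2]) ≠ 0 := by norm_num
      exact pow_ne_zero k h4 h3
    have hdense : Dense (Set.range (fun n : ℤ => n • (1 : ℤ_[2]))) := by
      have : (fun n : ℤ => n • (1 : ℤ_[2])) = (Int.cast : ℤ → ℤ_[2]) := by
        funext n; simp
      rw [this]
      exact PadicInt.denseRange_intCast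
    have key := (h ℤ_[2] hiso 1 hdense ff H hH 0 w).1
    have hmem : Memℓp (fun n : ℤ => ((Real.exp (-gg n) : ℝ) : ℂ)) 2 := by
      refine memℓp_gen ?_
      have := summable_eigen
      refine this.congr (fun n => ?_)
      rw [Complex.norm_real, Real.norm_of_nonneg (Real.exp_pos _).le]
      norm_num
    obtain ⟨ψ, hψ0, E, hE⟩ := key ⟨⟨fun n : ℤ => ((Real.exp (-gg n) : ℝ) : ℂ), hmem⟩, by
      intro h0
      have h1 : ((Real.exp (-gg 0) : ℝ) : ℂ) = 0 := congrFun (congrArg Subtype.val h0) 0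
      exact (Real.exp_pos _).ne' (by exact_mod_cast h1), 0, by
      ext n
      rw [hH]
      have := eigen_eq n
      simp only [zsmul_eq_mul, mul_one, add_zero, Complex.ofReal_zero, zero_smul, lp.coeFn_zero,
        Pi.zero_apply]
      exact_mod_cast this⟩
    apply hψ0
    have hlim : Filter.Tendsto (fun n : ℤ => ψ n) Filter.cofinite (nhds 0) := by
      have h1 := ((lp.memℓp ψ).summable (by norm_num)).tendsto_cofinite_zero
      rw [tendsto_zero_iff_norm_tendsto_zero]
      have h2 := h1.sqrt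
      rw [Real.sqrt_zero] at h2
      refine h2.congr (fun n => ?_)
      simp
    have hz := gordon (fun n : ℤ => (E : ℂ) - ((ff (n + w) : ℝ) : ℂ)) (fun n => ψ n) (fun n => by
        have h1 : (H w ψ) n = ((E : ℂ) • ψ) n := by rw [hE]
        rw [hH] at h1
        simp only [zsmul_eq_mul, mul_one, lp.coeFn_smul, Pi.smul_apply, smul_eq_mul] at h1
        linear_combination h1)
      (fun k => 16 ^ k) (tendsto_pow_atTop_atTop_of_one_lt (by norm_num))
      (fun k j hj hjk => by
        have hjk' : (j : ℤ) ≤ 16 ^ k := by exact_mod_cast hjk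
        have hj' : (0 : ℤ) ≤ j := by positivity
        have := ff_phase w hw k j (j + (16 ^ k : ℕ)) 1 (by push_cast; ring)
          (by rw [abs_le]; constructor <;> linarith)
          (by push_cast; rw [abs_le]; constructor <;> linarith)
        simp only [this])
      (fun k j hj hjk => by
        have hjk' : (j : ℤ) ≤ 16 ^ k := by exact_mod_cast hjk
        have hj' : (0 : ℤ) ≤ j := by positivity
        have := ff_phase w hw k j (j - (16 ^ k : ℕ)) (-1) (by push_cast; ring)
          (by rw [abs_le]; constructor <;> linarith)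
          (by push_cast; rw [abs_le]; constructor <;> linarith)
        simp only [this])
      hlim
    ext n
    exact congrFun hz n

end Pool.Agent.Work.MP_e37829_mp.Parked.Neg
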